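import Pool.Agent.E8helper58.CM.All
import Pool.Agent.E8helper58.CM.Crit

/-!
# The Singer conjecture for right-angled Coxeter groups: a class of nerves given by conditions on links

Let `L` be the flag complex of the finite graph `G`, the nerve of the right-angled Coxeter group `W G`, and suppose
that `L` is a real homology manifold with the real homology of the `(n-1)`-sphere (`HSph n G`); this includes all flag
triangulations of the `(n-1)`-sphere.

We prove the Singer conjecture for the Davis complex, and the sign of the Euler characteristic predicted by it, for a
class of nerves (`Cls n G Set.univ`) which contains `L` if each link of even dimension `≥ 4` in `L` (`L` itself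
included) satisfies one of the following conditions (`Loc`):
* it is a join;
* it has a vertex whose non-neighbours span a graph without cycles;
* it has dimension `2 k + 4` and each of its simplices with `k + 3` vertices has a vertex whose link has `chiW = 0`
  (`chiW` is the sum `∑_T (-1/2)^|T|` over the simplices `T`, the Euler characteristic of the Coxeter group of the
  link, not the topological one);
* it has few vertices.
For `n = 5` there is only one condition, on `L`.  All conditions hold for the flag homology spheres with `3 n - c`
vertices and `c` join factors, the minimal number (a bound from the starting library).  The class is closed under the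
inverse of the contraction of an edge which is not contained in an induced 4-cycle, if the links of this edge and
of its vertices are in the class (which is automatic for `n = 5`).
-/

set_option autoImplicit false

namespace Pool.Agent.Results.MP_577489_gt.LinkClassH58

open Pool.Agent.W907.SG Pool.Agent.W907.SM Pool.Agent.E8helper58.CM
open Pool.Agent.TH652.Above (HSph lv_univ singer_of_above chi_sign)
open Pool.Agent.W497.FS (comps)

/-- Let the flag complex of the finite graph `G` be a real homology sphere of dimension `n - 1`.

(1) If `G` has at most `3 n - c` vertices, where `c` is the number of join factors of the flag complex, or if all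
links of even dimension `2 k + 4` satisfy the condition `Loc k`, then the flag complex is in the class.

(2) If the flag complex is in the class, then (a) for every full subcomplex `A` the reduced `ℓ²`-homology of the Davis
complex of `W (G.induce A)` vanishes in the degrees above `n / 2`, (b) the reduced `ℓ²`-homology of the Davis complex of
`W G` vanishes in all degrees `i ≠ n / 2`, (c) for `n = 2 m` the number `(-1)^m χ(W G)` is not negative, where
`χ(W G) = ∑_T (-1/2)^|T|` over the cliques `T` of `G`. -/
theorem result : ∀ (n : ℕ) (V : Type) [Fintype V] [LinearOrder V] (G : SimpleGraph V), HSph n G →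
    ((Fintype.card V + (comps G Finset.univ).card ≤ 3 * n ∨
        (∀ (S : Finset V) (k : ℕ), G.IsClique (S : Set V) → S.card + (2 * k + 5) = n → Loc k G (lk G S))) →
      Cls n G Set.univ) ∧
    (Cls n G Set.univ →
      (∀ (A : Set V) [Fintype ↥A] (i : ℕ), n < 2 * i → L2Van (G.induce A) i) ∧
      (∀ i : ℕ, 2 * i ≠ n → L2Van G i) ∧
      (∀ m : ℕ, n = 2 * m → 0 ≤ (-1 : ℚ) ^ m * chiW G)) := by
  intro n V _ _ G hS
  refine ⟨fun h => cls_univ hS fun S k hcl hk => ?_, fun h => ?_⟩
  · rcases h with h | h
    · exact loc_of_card hS h S k hcl hk
    · exact h S k hcl hk
  have h1 : Pool.Agent.E8helper58.FV.R G n Set.univ := cls_R conA conB irr h (sphA_univ hS)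
  have h2 : ∀ i : ℕ, n < 2 * i → L2Van G i := fun i hi =>
    (lv_univ G i).1 (h1 Set.univ (Set.subset_univ _) i hi) _ _
  have hs : ∀ i : ℕ, 2 * i ≠ n → L2Van G i := fun i hi => singer_of_above hS h2 i hi
  refine ⟨?_, hs, ?_⟩
  · intro A _ i hi
    exact h1 A (Set.subset_univ _) i hi _ _
  · rintro m rfl
    exact chi_sign G fun i hi => hs i (by omega)

end Pool.Agent.Results.MP_577489_gt.LinkClassH58
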