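import Pool.Agent.E8helper58.CM.All

/-!
# The Singer conjecture for right-angled Coxeter groups: reduction to irreducible nerves and to one degree

Let `L` be the flag complex of the finite graph `G`, the nerve of the right-angled Coxeter group `W G`, and suppose
that `L` is a real homology manifold with the real homology of the `(n-1)`-sphere (`HSph n G`); this includes all flag
triangulations of the `(n-1)`-sphere.

We show that the Singer conjecture for the Davis complexes of these groups with `n ≤ M` is equivalent to the vanishing
of the reduced `ℓ²`-homology in a single degree for the odd `n` between `5` and `M` and the irreducible nerves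
(`Irred n G`): the nerve is not a join, each edge is contained in an induced 4-cycle, some simplex with `(n + 1) / 2`
vertices has only vertices whose links have `chiW ≠ 0` (`chiW` is the sum `∑_T (-1/2)^|T|` over the simplices `T`, the
Euler characteristic of the Coxeter group of the link, not the topological one), and the number of vertices is at
least `3 n` and more than `n + 3 ⌊n / 2⌋ + 2`.  It is also equivalent to the vanishing above the middle dimension for all full
subcomplexes of the nerves.
-/

set_option autoImplicit false

namespace Pool.Agent.Results.MP_577489_gt.OneDegreeH58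

open Pool.Agent.W907.SG Pool.Agent.W907.SM Pool.Agent.E8helper58.CM
open Pool.Agent.TH652.Above (HSph lv_univ singer_of_above)

/-- For every `M` the following statements are equivalent.

(a) The Singer conjecture for the right-angled Coxeter groups whose nerves are flag homology spheres of dimension
`n - 1`, `n ≤ M`: the reduced `ℓ²`-homology of the Davis complex vanishes in the degrees `i ≠ n / 2`.

(b) For all full subcomplexes of these nerves the reduced `ℓ²`-homology vanishes in the degrees `i > n / 2`.

(c) For all odd `n` with `5 ≤ n ≤ M` and all irreducible flag homology spheres of dimension `n - 1` the reduced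
`ℓ²`-homology vanishes in the degree `(n + 1) / 2`. -/
theorem result : ∀ M : ℕ, List.TFAE
    [∀ (n : ℕ) (V : Type) [Fintype V] [LinearOrder V] (G : SimpleGraph V), n ≤ M → HSph n G →
        ∀ i : ℕ, 2 * i ≠ n → L2Van G i,
      ∀ (n : ℕ) (V : Type) [Fintype V] [LinearOrder V] (G : SimpleGraph V), n ≤ M → HSph n G →
        ∀ (A : Set V) [Fintype ↥A] (i : ℕ), n < 2 * i → L2Van (G.induce A) i,
      ∀ (n : ℕ) (V : Type) [Fintype V] [LinearOrder V] (G : SimpleGraph V), n ≤ M → HSph n G →
        Odd n → 5 ≤ n → Irred n G → L2Van G ((n + 1) / 2)] := by
  intro M
  tfae_have 1 → 3 := by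
    intro h n V _ _ G hn hS hodd _ _
    refine h n V G hn hS _ ?_
    obtain ⟨k, hk⟩ := hodd
    omega
  tfae_have 3 → 2 := by
    intro h n V _ _ G hn hS A _ i hi
    have hI : Irr 3 M := irr_three irr fun n V _ _ G hS hodd h5 hM hirr => h n V G hM hS hodd h5 hirr
    exact above_all conA conB hI hn hS A (Set.subset_univ _) i hi _ _
  tfae_have 2 → 1 := by
    intro h n V _ _ G hn hS i hi
    refine singer_of_above hS (fun i hi => ?_) i hi
    exact (lv_univ G i).1 (lv_of (h n V G hn hS Set.univ i hi)) _ _
  tfae_finish

end Pool.Agent.Results.MP_577489_gt.OneDegreeH58
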